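import Mathlib
import Pool.Agent.H.MP_89b5f7_an.A

namespace Pool.Agent.Results.MP_89b5f7_an.Rearr

open Set Filter Topology Finset Pool.Agent.H.MP_89b5f7_an

set_option maxHeartbeats 400000

/-- The series of `x`, summed in the given order, converges to `s`. -/
def Conv (x : ℕ → ℂ) (s : ℂ) : Prop := Tendsto (fun N => ∑ n ∈ range N, x n) atTop (𝓝 s)

/-- Sum range. -/
def SR (x : ℕ → ℂ) : Set ℂ := {s | ∃ σ : Equiv.Perm ℕ, Conv (x ∘ σ) s}

/-- Achievement set. -/
def Ach (x : ℕ → ℂ) : Set ℂ := {s | ∃ A : Set ℕ, Conv (A.indicator x) s}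

/-- Levy vectors. -/
def Levy (x : ℕ → ℂ) : Set ℂ :=
  {u | ‖u‖ = 1 ∧ ∀ ε > (0:ℝ),
    ¬ Summable ({n | (1 - ε) * ‖u‖ * ‖x n‖ ≤ inner ℝ u (x n)}.indicator fun n => ‖x n‖)}

noncomputable def z (a b : ℕ → ℝ) (n : ℕ) : ℂ :=
  if n % 3 = 0 then ((-1) ^ (n / 3) * a (n / 3 / 2) : ℝ) +
    ((-1) ^ (n / 3) * b (n / 3 / 2) : ℝ) * Complex.I
  else if n % 3 = 1 then -(((-1) ^ (n / 3) * b (n / 3 / 2) : ℝ) * Complex.I)
  else ((-1) ^ (n / 3) * b (n / 3 / 2) : ℝ) * Complex.I

theorem z0 (a b g) : z a b (3 * g) =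
    ((-1) ^ g * a (g / 2) : ℝ) + ((-1) ^ g * b (g / 2) : ℝ) * Complex.I := by
  unfold z; rw [if_pos (by omega), show 3 * g / 3 = g by omega]
theorem z1 (a b g) : z a b (3 * g + 1) = -(((-1) ^ g * b (g / 2) : ℝ) * Complex.I) := by
  unfold z; rw [if_neg (by omega), if_pos (by omega), show (3 * g + 1) / 3 = g by omega]
theorem z2 (a b g) : z a b (3 * g + 2) = ((-1) ^ g * b (g / 2) : ℝ) * Complex.I := by
  unfold z; rw [if_neg (by omega), if_neg (by omega), show (3 * g + 2) / 3 = g by omega]

theorem parts (a b : ℕ → ℝ) (ha : ∀ j, 0 < a j) (hb : ∀ j, 0 < b j) (n : ℕ) :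
    |(z a b n).re| ≤ a (n / 3 / 2) ∧ |(z a b n).im| = b (n / 3 / 2) := by
  have := ha (n / 3 / 2)
  have := hb (n / 3 / 2)
  unfold z
  split_ifs <;> simp [-Complex.ofReal_mul, abs_mul, abs_of_pos, *, le_of_lt]

theorem comb {f g : ℕ → ℝ} {s t : ℝ} (hf : Tendsto (fun N => ∑ n ∈ range N, f n) atTop (𝓝 s))
    (hg : Tendsto (fun N => ∑ n ∈ range N, g n) atTop (𝓝 t)) :
    Conv (fun n => (f n : ℂ) + g n * Complex.I) (s + t * Complex.I) :=
  (hf.ofReal.add (hg.ofReal.mul_const Complex.I)).congr fun N => by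
    simp [sum_add_distrib, sum_mul]

def mix (π ρ : ℕ → ℕ) (n : ℕ) : ℕ := if n % 3 = 2 then 3 * ρ (n / 3) + 2 else 3 * π (n / 3) + n % 3

theorem mix_inv (π ρ : Equiv.Perm ℕ) (n : ℕ) : mix π.symm ρ.symm (mix π ρ n) = n := by
  by_cases h : n % 3 = 2
  · rw [show mix π ρ n = 3 * ρ (n / 3) + 2 from if_pos h, mix, if_pos (by omega),
      show (3 * ρ (n / 3) + 2) / 3 = ρ (n / 3) by omega, Equiv.symm_apply_apply]; omega
  · rw [show mix π ρ n = 3 * π (n / 3) + n % 3 from if_neg h, mix, if_neg (by omega),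
      show (3 * π (n / 3) + n % 3) / 3 = π (n / 3) by omega, Equiv.symm_apply_apply]; omega

theorem result : ∃ x : ℕ → ℂ, (∃ s, Conv x s) ∧ ¬ Summable (fun n => ‖x n‖) ∧ SR x = univ ∧
    Ach x = univ ∧ (Levy x).ncard = 2 ∧ ∃ σ : Equiv.Perm ℕ, Ach (x ∘ σ) ≠ univ := by
  classical
  obtain ⟨k, k1, k2⟩ := lev
  let a : ℕ → ℝ := fun j => 1 / q (k j)
  let b : ℕ → ℝ := fun j => 1 / 2 ^ k j
  have q4 : ∀ c, (2:ℝ) ^ c * 2 ^ c ≤ q c := fun c => by
    rw [← mul_pow]; exact_mod_cast q_ge c
  have hb : ∀ j, 0 < b j := fun j => by positivity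
  have ha : ∀ j, 0 < a j := fun j => one_div_pos.2 (lt_of_lt_of_le (by positivity) (q4 _))
  have hab : ∀ j, a j ≤ b j * b j := fun j => by
    simp only [a, b, one_div_mul_one_div]
    exact one_div_le_one_div_of_le (by positivity) (q4 _)
  have hb1 : ∀ j, b j ≤ 1 := fun j => by
    simp only [b]; rw [div_le_one (by positivity)]; exact one_le_pow₀ (by norm_num)
  have hab' : ∀ j, a j ≤ b j := fun j => by nlinarith [hab j, hb j, hb1 j]
  have b0 : Tendsto b atTop (𝓝 0) := by
    simpa [b, Function.comp_def] using (tendsto_pow_atTop_nhds_zero_of_lt_one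
      (r := (1 / 2 : ℝ)) (by norm_num) (by norm_num)).comp k1
  have a0 : Tendsto a atTop (𝓝 0) := squeeze_zero (fun j => (ha j).le) hab' b0
  have sa : ¬ Summable a := fun h => by
    refine Real.not_summable_one_div_natCast ((summable_nat_add_iff 1).1
      (Summable.of_nonneg_of_le (fun _ => by positivity) (fun j => ?_) h))
    exact one_div_le_one_div_of_le (one_div_pos.1 (ha j)) (by exact_mod_cast k2 j)
  have sb : ¬ Summable b := fun h => sa (h.of_nonneg_of_le (fun j => (ha j).le) hab')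
  have t6 : Tendsto (fun n : ℕ => n / 3 / 2) atTop atTop :=
    (Nat.tendsto_div_const_atTop two_ne_zero).comp (Nat.tendsto_div_const_atTop three_ne_zero)
  have hz0 : Tendsto (z a b) atTop (𝓝 0) := by
    have := (a0.add b0).comp t6
    rw [add_zero] at this
    refine squeeze_zero_norm (fun n => (Complex.norm_le_abs_re_add_abs_im _).trans ?_) this
    have := parts a b ha hb n
    simp only [Function.comp]; linarith [this.1, this.2]
  have nz : ∀ (j : ℕ) (g : ℕ), g / 2 = j → ‖z a b (3 * g + 2)‖ = b j := fun j g h => by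
    rw [z2, h]; simp [abs_of_pos (hb j)]
  refine ⟨z a b, ⟨_, triple hz0 (fun g => ?_) (comb (alt a0) (alt b0))⟩, fun h => ?_,
    eq_univ_of_forall fun s => ?_, eq_univ_of_forall fun s => ?_, ?_, ?_⟩
  · rw [z0, z1, z2]; ring
  · exact sb ((h.comp_injective (i := fun j => 3 * (2 * j) + 2) fun a b h => by
      simpa using h).congr fun j => nz j _ (by omega))
  · obtain ⟨π, hπ⟩ := riemann ha a0 sa s.re
    obtain ⟨ρ, hρ⟩ := riemann hb b0 sb s.im
    let σ : Equiv.Perm ℕ := ⟨mix π ρ, mix π.symm ρ.symm, mix_inv π ρ, mix_inv π.symm ρ.symm⟩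
    refine ⟨σ, triple (hz0.comp σ.injective.nat_tendsto_atTop) (fun g => ?_)
      (Complex.re_add_im s ▸ comb hπ hρ)⟩
    show z a b (mix π ρ _) + z a b (mix π ρ _) + z a b (mix π ρ _) = _
    rw [mix, mix, mix, if_neg (by omega), if_neg (by omega), if_pos (by omega),
      show 3 * g / 3 = g by omega, show (3 * g + 1) / 3 = g by omega,
      show (3 * g + 2) / 3 = g by omega, show 3 * g % 3 = 0 by omega,
      show (3 * g + 1) % 3 = 1 by omega, add_zero, z0, z1, z2]
    ring
  · obtain ⟨A, hA⟩ := sub a0 sa s.re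
    obtain ⟨B, hB⟩ := sub b0 sb s.im
    refine ⟨{n | if n % 3 = 2 then n / 3 ∈ B else n / 3 ∈ A}, triple
      (squeeze_zero_norm (fun n => norm_indicator_le_norm_self _ _)
        (tendsto_zero_iff_norm_tendsto_zero.1 hz0)) (fun g => ?_)
      (Complex.re_add_im s ▸ comb hA hB)⟩
    simp only [indicator, mem_ofPred_eq, show 3 * g / 3 = g by omega,
      show (3 * g + 1) / 3 = g by omega, show (3 * g + 2) / 3 = g by omega,
      show 3 * g % 3 = 0 by omega, show (3 * g + 1) % 3 = 1 by omega,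
      show (3 * g + 2) % 3 = 2 by omega, z0, z1, z2]
    by_cases h1 : g ∈ A <;> by_cases h2 : g ∈ B <;> simp [h1, h2]
  · have : Levy (z a b) = {Complex.I, -Complex.I} := by
      ext u
      constructor
      · rintro ⟨u1, u2⟩
        by_contra hu
        have h1 : |u.im| < 1 := by
          refine lt_of_le_of_ne (u1 ▸ Complex.abs_im_le_norm u) fun h => hu ?_
          have h2 : u.re = 0 := Complex.abs_im_eq_norm.1 (h.trans u1.symm)
          rcases abs_eq (by norm_num : (0:ℝ) ≤ 1) |>.1 h with h3 | h3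
          · left; exact Complex.ext (by simp [h2]) (by simp [h3])
          · right; exact Complex.ext (by simp [h2]) (by simp [h3])
        have h2 : 0 < (1 - |u.im|) / 2 := by linarith
        refine u2 _ h2 (summable_of_hasFiniteSupport ?_)
        obtain ⟨N, hN⟩ := eventually_atTop.1 ((b0.comp t6).eventually_lt_const h2)
        refine (finite_Iio N).subset fun n hn => ?_
        by_contra hc
        have h3 := hN n (not_lt.1 hc)
        have h4 := (mem_of_indicator_ne_zero hn)
        obtain ⟨p1, p2⟩ := parts a b ha hb n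
        have h5 := Complex.abs_im_le_norm (z a b n)
        have h6 : |u.re| ≤ 1 := u1 ▸ Complex.abs_re_le_norm u
        have h7 := hab (n / 3 / 2)
        have h8 := hb (n / 3 / 2)
        rw [mem_ofPred_eq, u1, Complex.inner, mul_one] at h4
        simp only [Complex.mul_re, Complex.conj_re, Complex.conj_im, Function.comp] at h4 h3
        have c1 := le_abs_self ((z a b n).re * u.re)
        have c2 := le_abs_self ((z a b n).im * u.im)
        rw [abs_mul] at c1 c2
        have c3 : |(z a b n).re| * |u.re| ≤ a (n / 3 / 2) := by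
          nlinarith [abs_nonneg (z a b n).re, abs_nonneg u.re]
        rw [p2] at c2 h5
        nlinarith [abs_nonneg u.im]
      · intro hu
        obtain ⟨r, hr⟩ : ∃ r < 2, u = (-1) ^ r * Complex.I := by
          rcases hu with h | h
          exacts [⟨0, by norm_num, by simpa using h⟩, ⟨1, by norm_num, by simpa using h⟩]
        have u1 : ‖u‖ = 1 := by simp [hr.2]
        refine ⟨u1, fun ε hε h => sb ((h.comp_injective (i := fun j => 3 * (2 * j + r) + 2)
          fun a b h => by simpa using h).congr fun j => ?_)⟩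
        have h1 := nz j (2 * j + r) (by omega)
        simp only [Function.comp]
        rw [indicator_of_mem, h1]
        rw [mem_ofPred_eq, u1, h1, z2, show (2 * j + r) / 2 = j by omega, hr.2]
        have := hb j
        obtain rfl | rfl : r = 0 ∨ r = 1 := by omega
        all_goals simp [Complex.inner, pow_succ]; nlinarith
    rw [this, ncard_pair]
    intro h
    have := congrArg Complex.im h
    norm_num at this
  · let κ : ℕ → ℕ := fun n => 2 * k (n / 3 / 2) + if n % 3 = 0 then 0 else 1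
    have tκ : Tendsto κ atTop atTop :=
      tendsto_atTop_mono (fun n => by simp only [κ, Function.comp]; omega) (k1.comp t6)
    obtain ⟨σ, hσ⟩ := sortperm κ tκ
    refine ⟨σ, fun h => ?_⟩
    obtain ⟨A, hA⟩ : ((1 / 3 : ℝ) : ℂ) ∈ Ach (z a b ∘ σ) := by rw [h]; trivial
    have hex : ∀ c, ∃ t, c ≤ κ (σ t) := fun c =>
      ((tκ.comp σ.injective.nat_tendsto_atTop).eventually_ge_atTop c).exists
    let u : ℕ → ℕ := fun c => Nat.find (hex c)
    have u1 : ∀ c t, u c ≤ t ↔ c ≤ κ (σ t) := fun c t =>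
      ⟨fun h => (Nat.find_spec (hex c)).trans (hσ h), fun h => Nat.find_min' _ h⟩
    have u2 : Monotone u := fun c c' h => (u1 _ _).2 (h.trans ((u1 _ _).1 le_rfl))
    have u3 : Tendsto u atTop atTop := u2.tendsto_atTop_atTop fun t =>
      ⟨κ (σ t) + 1, by by_contra hc; have := (u1 _ _).1 (not_le.1 hc).le; omega⟩
    let P : ℕ → ℂ := fun c => ∑ t ∈ range (u c), A.indicator (z a b ∘ σ) t
    have hP : Tendsto P atTop (𝓝 ((1 / 3 : ℝ) : ℂ)) := by unfold Conv at hA; exact hA.comp u3
    have hd : ∀ c, P (c + 1) - P c = ∑ t ∈ Ico (u c) (u (c + 1)), A.indicator (z a b ∘ σ) t :=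
      fun c => (sum_Ico_eq_sub _ (u2 c.le_succ)).symm
    have hκ : ∀ c, ∀ t ∈ Finset.Ico (u c) (u (c + 1)), κ (σ t) = c := fun c t ht => by
      have h1 := Finset.mem_Ico.1 ht
      have h2 := (u1 _ _).1 h1.1
      have h3 := mt (u1 (c + 1) t).2 h1.2.not_ge
      omega
    let n : ℕ → ℤ := fun c => ∑ t ∈ Ico (u (2 * c)) (u (2 * c + 1)),
      A.indicator (fun t => (-1) ^ (σ t / 3)) t
    have e1 : ∀ c, P (2 * c + 1) - P (2 * c) =
        (n c / q c : ℝ) + (n c / 2 ^ c : ℝ) * Complex.I := fun c => by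
      rw [hd]
      simp only [n]
      push_cast
      rw [sum_div, sum_div, sum_mul, ← sum_add_distrib]
      refine sum_congr rfl fun t ht => ?_
      have h1 := hκ _ t ht
      simp only [κ] at h1
      have h2 : σ t % 3 = 0 := by by_contra h; rw [if_neg h] at h1; omega
      have h3 : k (σ t / 3 / 2) = c := by rw [if_pos h2] at h1; omega
      by_cases h : t ∈ A
      · simp only [indicator_of_mem h, Function.comp, z, if_pos h2, a, b, h3]
        push_cast; ring
      · simp [h]
    have e2 : ∀ c, (P (2 * c + 1 + 1)).re = (P (2 * c + 1)).re := fun c => by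
      rw [← sub_eq_zero, ← Complex.sub_re, hd, Complex.re_sum]
      refine sum_eq_zero fun t ht => ?_
      have h1 := hκ _ t ht
      simp only [κ] at h1
      have h2 : σ t % 3 ≠ 0 := fun h => by rw [if_pos h] at h1; omega
      by_cases h : t ∈ A
      · simp only [indicator_of_mem h, Function.comp, z, if_neg h2]
        split_ifs <;> simp [-Complex.ofReal_mul]
      · simp [h]
    have t2 : Tendsto (fun c : ℕ => 2 * c) atTop atTop := tendsto_id.const_mul_atTop' two_pos
    refine third (X := fun c => (P (2 * c)).re) (n := n) ?_ (fun c => ?_) ?_ ?_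
    · have : u 0 = 0 := Nat.eq_zero_of_le_zero ((u1 0 0).2 (Nat.zero_le _))
      simp [P, this]
    · have := congrArg Complex.re (e1 c)
      simp only [Complex.sub_re, Complex.add_re, Complex.ofReal_re, Complex.mul_I_re,
        Complex.ofReal_im] at this
      rw [show 2 * (c + 1) = 2 * c + 1 + 1 by ring, e2]; linarith
    · have := (Complex.continuous_im.tendsto _).comp
        ((((tendsto_add_atTop_iff_nat 1).2 hP).sub hP).comp t2)
      rw [sub_self] at this
      refine this.congr fun c => ?_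
      simp only [Function.comp, e1, Complex.add_im, Complex.ofReal_im, Complex.mul_I_im,
        Complex.ofReal_re, zero_add]
    · exact (Complex.continuous_re.tendsto _).comp (hP.comp t2)

end Pool.Agent.Results.MP_89b5f7_an.Rearr
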